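import Mathlib

set_option autoImplicit false

/-!
# A Borel graph whose 3-colourings give nonprincipal ultrafilters

The graph lives on the Polish space `Pt`, the disjoint union of three palette points, of the
Cantor space (one vertex for every subset of `ω`) and of five gadget vertices for every pair of
subsets of `ω`. It is Borel (even closed), it has chromatic number `3` and countable colouring
number, and whenever a transitive (set or class) model of ZF contains a `3`-colouring of it, the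
model contains a nonprincipal ultrafilter on `ω`.
-/

namespace Pool.Agent.Results.MP_7d109d_lc.ColouringsGiveUltrafilters

open ZFSet

universe u

/-! ### Transitive models of ZF -/

/-- Formulas of the language of set theory (one binary relation symbol), with variables
`x_0, x_1, ...`. The constructor `ex i φ` is the quantifier `∃ x_i, φ`. -/
inductive Fml : Type
  | mem (i j : ℕ) : Fml
  | eq (i j : ℕ) : Fml
  | neg (φ : Fml) : Fml
  | and (φ ψ : Fml) : Fml
  | ex (i : ℕ) (φ : Fml) : Fml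

/-- `Sat M v φ`: the structure `(M, ∈)` satisfies `φ` when the variable `x_i` has the value `v i`.
Here `M` is an arbitrary class of sets. -/
def Sat (M : Set ZFSet.{u}) : (ℕ → ZFSet.{u}) → Fml → Prop
  | v, .mem i j => v i ∈ v j
  | v, .eq i j => v i = v j
  | v, .neg φ => ¬ Sat M v φ
  | v, .and φ ψ => Sat M v φ ∧ Sat M v ψ
  | v, .ex i φ => ∃ a ∈ M, Sat M (Function.update v i a) φ

/-- The structure `(M, ∈)` satisfies every axiom of ZF. All quantifiers are relativised to `M`. -/
structure ModelsZF (M : Set ZFSet.{u}) : Prop where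
  extensionality : ∀ x ∈ M, ∀ y ∈ M, (∀ z ∈ M, z ∈ x ↔ z ∈ y) → x = y
  foundation : ∀ x ∈ M, (∃ y ∈ M, y ∈ x) → ∃ y ∈ M, y ∈ x ∧ ∀ z ∈ M, ¬ (z ∈ y ∧ z ∈ x)
  pairing : ∀ x ∈ M, ∀ y ∈ M, ∃ z ∈ M, ∀ w ∈ M, w ∈ z ↔ w = x ∨ w = y
  union : ∀ x ∈ M, ∃ z ∈ M, ∀ w ∈ M, w ∈ z ↔ ∃ y ∈ M, y ∈ x ∧ w ∈ y
  power : ∀ x ∈ M, ∃ z ∈ M, ∀ w ∈ M, w ∈ z ↔ ∀ y ∈ M, y ∈ w → y ∈ x
  infinity : ∃ z ∈ M, (∃ x ∈ M, x ∈ z ∧ ∀ y ∈ M, y ∉ x) ∧
    ∀ x ∈ M, x ∈ z → ∃ y ∈ M, y ∈ z ∧ ∀ w ∈ M, w ∈ y ↔ w ∈ x ∨ w = x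
  separation : ∀ (φ : Fml) (v : ℕ → ZFSet.{u}), (∀ i, v i ∈ M) → ∀ a ∈ M, ∃ b ∈ M, ∀ z ∈ M,
    z ∈ b ↔ z ∈ a ∧ Sat M (Function.update v 0 z) φ
  replacement : ∀ (φ : Fml) (v : ℕ → ZFSet.{u}), (∀ i, v i ∈ M) → ∀ a ∈ M,
    (∀ x ∈ M, x ∈ a → ∃ y ∈ M, ∀ y' ∈ M,
      Sat M (Function.update (Function.update v 0 x) 1 y') φ ↔ y' = y) →
    ∃ b ∈ M, ∀ y ∈ M, y ∈ b ↔
      ∃ x ∈ M, x ∈ a ∧ Sat M (Function.update (Function.update v 0 x) 1 y) φ

/-- A transitive (set or class) model of ZF. -/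
structure TransitiveModel (M : Set ZFSet.{u}) : Prop extends ModelsZF M where
  transitive : ∀ x ∈ M, ∀ y ∈ x, y ∈ M

/-! ### Points of the Polish space as sets -/

/-- The von Neumann numeral `n`. -/
noncomputable def num : ℕ → ZFSet.{u}
  | 0 => ∅
  | n + 1 => insert (num n) (num n)

/-- The subset of `ω` with characteristic function `a`. -/
noncomputable def real (a : ℕ → Bool) : ZFSet.{u} :=
  ZFSet.range fun n : {n : ℕ // a n = true} => num n.1

/-- The Polish space on which the graph lives: three points, a copy of the Cantor space, and five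
copies of the square of the Cantor space. -/
abbrev Pt : Type := Fin 3 ⊕ (ℕ → Bool) ⊕ ((ℕ → Bool) × (ℕ → Bool) × Fin 5)

/-- The points of the space `Pt` as sets. -/
noncomputable def code : Pt → ZFSet.{u}
  | .inl i => pair (num 0) (num i)
  | .inr (.inl a) => pair (num 1) (real a)
  | .inr (.inr (a, b, i)) => pair (num 2) (pair (real a) (pair (real b) (num i)))

/-- `c` is, in the transitive model `M`, a `k`-colouring of the graph `Γ`: it is a function from
the set of the points of `Pt` that lie in `M` to `k = {0, ..., k - 1}`, and it gives different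
values to adjacent points. -/
structure IsColouringIn (M : Set ZFSet.{u}) (Γ : SimpleGraph Pt) (k : ℕ) (c : ZFSet.{u}) :
    Prop where
  sub : ∀ z ∈ c, ∃ x : Pt, ∃ j < k, code x ∈ M ∧ z = pair (code x) (num j)
  val : ∀ x : Pt, code.{u} x ∈ M → ∃! j : ℕ, pair (code x) (num j) ∈ c
  proper : ∀ x y : Pt, code.{u} x ∈ M → code.{u} y ∈ M → Γ.Adj x y →
    ∀ j : ℕ, ¬ (pair (code x) (num j) ∈ c ∧ pair (code y) (num j) ∈ c)

/-- `U` is, in the transitive model `M`, a nonprincipal ultrafilter on `ω`. -/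
structure IsUltrafilterIn (M : Set ZFSet.{u}) (U : ZFSet.{u}) : Prop where
  sub : ∀ A ∈ U, A ⊆ omega
  top : omega ∈ U
  inter : ∀ A ∈ U, ∀ B ∈ U, A ∩ B ∈ U
  up : ∀ A ∈ U, ∀ B ∈ M, A ⊆ B → B ⊆ omega → B ∈ U
  ultra : ∀ A ∈ M, A ⊆ omega → (A ∈ U ↔ omega \ A ∉ U)
  nonprincipal : ∀ n ∈ omega, ({n} : ZFSet.{u}) ∉ U

/-! ### The graph -/

/-- Complement. -/
def cpl (a : ℕ → Bool) : ℕ → Bool := fun n => !a n

/-- Intersection. -/
def inf (a b : ℕ → Bool) : ℕ → Bool := fun n => a n && b n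

/-- The edges of the graph, in one of the two directions. The palette points `0, 1, 2` are thought
of as true, false and neutral. -/
def Edge (x y : Pt) : Prop :=
  (∃ i j : Fin 3, i ≠ j ∧ x = .inl i ∧ y = .inl j) ∨
  (∃ a, x = .inl 2 ∧ y = .inr (.inl a)) ∨
  (∃ a, (∀ n m, a n = true → a m = true → n = m) ∧ x = .inl 0 ∧ y = .inr (.inl a)) ∨
  (∃ a, x = .inr (.inl a) ∧ y = .inr (.inl (cpl a))) ∨
  (∃ a b, x = .inr (.inl (cpl a)) ∧ y = .inr (.inr (a, b, 0))) ∨
  (∃ a b, x = .inr (.inl (cpl b)) ∧ y = .inr (.inr (a, b, 1))) ∨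
  (∃ a b, x = .inr (.inl (inf a b)) ∧ y = .inr (.inr (a, b, 4))) ∨
  (∃ a b, ∃ i j : Fin 5, (i, j) ∈ ({(0, 1), (0, 2), (1, 2), (2, 3), (3, 4)} : Finset _) ∧
    x = .inr (.inr (a, b, i)) ∧ y = .inr (.inr (a, b, j))) ∨
  (∃ a b, ∃ i : Fin 5, i ∈ ({3, 4} : Finset _) ∧ x = .inl 0 ∧ y = .inr (.inr (a, b, i)))

/-- The graph. -/
def Gr : SimpleGraph Pt := SimpleGraph.fromRel Edge

/-! ### Numerals and subsets of `ω` -/

theorem mem_omega {z : ZFSet.{u}} : z ∈ omega.{u} ↔ ∃ n, z = num n := by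
  have key : ∀ n, num.{u} n = ZFSet.mk (PSet.ofNat n) := by
    intro n
    induction n with
    | zero => rfl
    | succ n ih => rw [num, ih]; rfl
  constructor
  · intro h
    induction z using Quotient.inductionOn with
    | _ z =>
      obtain ⟨⟨n⟩, hn⟩ := h
      exact ⟨n, (ZFSet.sound hn).trans (key n).symm⟩
  · rintro ⟨n, rfl⟩
    induction n with
    | zero => exact omega_zero
    | succ n ih => exact omega_succ ih

theorem num_mem_num {n m : ℕ} : num.{u} n ∈ num.{u} m ↔ n < m := by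
  have key : ∀ (m n : ℕ), n < m → num.{u} n ∈ num.{u} m := by
    intro m
    induction m with
    | zero => intro n hn; omega
    | succ m ih =>
      intro n hn
      rw [num, mem_insert_iff]
      rcases Nat.lt_succ_iff_lt_or_eq.1 hn with h | h
      · exact Or.inr (ih n h)
      · exact Or.inl (by rw [h])
  constructor
  · intro h
    by_contra hcon
    rcases Nat.lt_or_ge m n with h1 | h1
    · exact mem_asymm h (key n m h1)
    · have : n = m := by omega
      subst this
      exact mem_irrefl _ h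
  · exact key m n

theorem num_inj {n m : ℕ} : num.{u} n = num.{u} m ↔ n = m := by
  constructor
  · intro h
    rcases lt_trichotomy n m with h1 | h1 | h1
    · have := num_mem_num.{u}.2 h1
      rw [h] at this
      exact absurd this (mem_irrefl _)
    · exact h1
    · have := num_mem_num.{u}.2 h1
      rw [h] at this
      exact absurd this (mem_irrefl _)
  · rintro rfl; rfl

theorem mem_real {a : ℕ → Bool} {z : ZFSet.{u}} : z ∈ real a ↔ ∃ n, a n = true ∧ z = num n := by
  rw [real, ZFSet.mem_range]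
  constructor
  · rintro ⟨⟨n, hn⟩, rfl⟩; exact ⟨n, hn, rfl⟩
  · rintro ⟨n, hn, rfl⟩; exact ⟨⟨n, hn⟩, rfl⟩

theorem num_mem_real {a : ℕ → Bool} {n : ℕ} : num.{u} n ∈ real.{u} a ↔ a n = true := by
  rw [mem_real]
  constructor
  · rintro ⟨m, hm, h⟩
    rwa [num_inj.1 h]
  · intro h; exact ⟨n, h, rfl⟩

theorem real_sub (a : ℕ → Bool) : real.{u} a ⊆ omega := by
  intro z hz
  obtain ⟨n, -, rfl⟩ := mem_real.1 hz
  exact mem_omega.2 ⟨n, rfl⟩

theorem real_inj {a b : ℕ → Bool} (h : real.{u} a = real.{u} b) : a = b := by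
  funext n
  rw [Bool.eq_iff_iff, ← num_mem_real.{u}, ← num_mem_real.{u}, h]

/-- The characteristic function of a subset of `ω`. -/
noncomputable def chi (A : ZFSet.{u}) : ℕ → Bool := by
  classical exact fun n => decide (num n ∈ A)

theorem real_chi {A : ZFSet.{u}} (h : A ⊆ omega) : real (chi A) = A := by
  ext z
  rw [mem_real]
  constructor
  · rintro ⟨n, hn, rfl⟩
    simpa [chi] using hn
  · intro hz
    obtain ⟨n, rfl⟩ := mem_omega.1 (h hz)
    exact ⟨n, by simpa [chi] using hz, rfl⟩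

theorem real_cpl (a : ℕ → Bool) : real.{u} (cpl a) = omega \ real a := by
  ext z
  rw [mem_real, mem_sdiff, mem_omega]
  constructor
  · rintro ⟨n, hn, rfl⟩
    refine ⟨⟨n, rfl⟩, ?_⟩
    rw [num_mem_real]
    simpa [cpl] using hn
  · rintro ⟨⟨n, rfl⟩, h⟩
    rw [num_mem_real] at h
    exact ⟨n, by simpa [cpl] using h, rfl⟩

theorem real_inf (a b : ℕ → Bool) : real.{u} (inf a b) = real a ∩ real b := by
  ext z
  rw [mem_inter, mem_real, mem_real, mem_real]
  constructor
  · rintro ⟨n, hn, rfl⟩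
    rw [inf, Bool.and_eq_true] at hn
    exact ⟨⟨n, hn.1, rfl⟩, ⟨n, hn.2, rfl⟩⟩
  · rintro ⟨⟨n, hn, rfl⟩, ⟨m, hm, h⟩⟩
    rw [num_inj] at h
    subst h
    exact ⟨n, by rw [inf, hn, hm]; rfl, rfl⟩

/-! ### Closure properties of transitive models -/

/-- Universal quantifier. -/
def Fml.all (i : ℕ) (φ : Fml) : Fml := .neg (.ex i (.neg φ))

/-- Disjunction. -/
def Fml.or (φ ψ : Fml) : Fml := .neg (.and (.neg φ) (.neg ψ))

/-- Implication. -/
def Fml.imp (φ ψ : Fml) : Fml := .neg (.and φ (.neg ψ))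

/-- Equivalence. -/
def Fml.iff (φ ψ : Fml) : Fml := .and (.imp φ ψ) (.imp ψ φ)

theorem sat_all {M : Set ZFSet.{u}} {v : ℕ → ZFSet.{u}} {i : ℕ} {φ : Fml} :
    Sat M v (.all i φ) ↔ ∀ a ∈ M, Sat M (Function.update v i a) φ := by
  simp [Fml.all, Sat]

theorem sat_or {M : Set ZFSet.{u}} {v : ℕ → ZFSet.{u}} {φ ψ : Fml} :
    Sat M v (.or φ ψ) ↔ Sat M v φ ∨ Sat M v ψ := by
  simp only [Fml.or, Sat]; tauto

theorem sat_imp {M : Set ZFSet.{u}} {v : ℕ → ZFSet.{u}} {φ ψ : Fml} :
    Sat M v (.imp φ ψ) ↔ (Sat M v φ → Sat M v ψ) := by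
  simp only [Fml.imp, Sat]; tauto

theorem sat_iff {M : Set ZFSet.{u}} {v : ℕ → ZFSet.{u}} {φ ψ : Fml} :
    Sat M v (.iff φ ψ) ↔ (Sat M v φ ↔ Sat M v ψ) := by
  simp only [Fml.iff, sat_imp, Sat]; tauto

theorem sat_ex {M : Set ZFSet.{u}} {v : ℕ → ZFSet.{u}} {i : ℕ} {φ : Fml} :
    Sat M v (.ex i φ) ↔ ∃ a ∈ M, Sat M (Function.update v i a) φ := Iff.rfl

/-- `x_w = {x_x, x_y}`; `k` is an auxiliary variable. -/
def isUpair (w x y k : ℕ) : Fml := .all k (.iff (.mem k w) (.or (.eq k x) (.eq k y)))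

/-- `x_p = (x_x, x_y)`; `w` and `k` are auxiliary variables. -/
def isPair (p x y w k : ℕ) : Fml :=
  .all w (.iff (.mem w p) (.or (isUpair w x x k) (isUpair w x y k)))

/-- `x_j` is an inductive set. -/
def isInd (j e k : ℕ) : Fml :=
  .and (.ex e (.and (.mem e j) (.all k (.neg (.mem k e)))))
    (.all e (.imp (.mem e j) (.ex k (.and (.mem k j)
      (.all (e + k + 1) (.iff (.mem (e + k + 1) k)
        (.or (.mem (e + k + 1) e) (.eq (e + k + 1) e))))))))

section Model

variable {M : Set ZFSet.{u}} (hM : TransitiveModel M)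

include hM

theorem upair_mem {x y : ZFSet.{u}} (hx : x ∈ M) (hy : y ∈ M) : ({x, y} : ZFSet.{u}) ∈ M := by
  obtain ⟨z, hz, h⟩ := hM.pairing x hx y hy
  have : z = {x, y} := by
    ext w
    rw [mem_pair]
    constructor
    · intro hw
      exact (h w (hM.transitive z hz w hw)).1 hw
    · intro hw
      have hwM : w ∈ M := by rcases hw with rfl | rfl <;> assumption
      exact (h w hwM).2 hw
  exact this ▸ hz

theorem singleton_mem {x : ZFSet.{u}} (hx : x ∈ M) : ({x} : ZFSet.{u}) ∈ M := by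
  have := upair_mem hM hx hx
  rwa [pair_eq_singleton] at this

theorem pair_mem {x y : ZFSet.{u}} (hx : x ∈ M) (hy : y ∈ M) : pair x y ∈ M :=
  upair_mem hM (singleton_mem hM hx) (upair_mem hM hx hy)

theorem of_pair_mem {x y : ZFSet.{u}} (h : pair x y ∈ M) : x ∈ M ∧ y ∈ M := by
  have h1 : ({x, y} : ZFSet.{u}) ∈ M := by
    refine hM.transitive _ h _ ?_
    rw [pair, mem_pair]
    exact Or.inr rfl
  exact ⟨hM.transitive _ h1 _ (by rw [mem_pair]; exact Or.inl rfl),
    hM.transitive _ h1 _ (by rw [mem_pair]; exact Or.inr rfl)⟩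

theorem union_mem {x y : ZFSet.{u}} (hx : x ∈ M) (hy : y ∈ M) : x ∪ y ∈ M := by
  obtain ⟨z, hz, h⟩ := hM.union _ (upair_mem hM hx hy)
  have : z = x ∪ y := by
    ext w
    rw [mem_union]
    constructor
    · intro hw
      obtain ⟨t, -, ht, hwt⟩ := (h w (hM.transitive z hz w hw)).1 hw
      rw [mem_pair] at ht
      rcases ht with rfl | rfl
      · exact Or.inl hwt
      · exact Or.inr hwt
    · intro hw
      rcases hw with hw | hw
      · exact (h w (hM.transitive x hx w hw)).2 ⟨x, hx, by rw [mem_pair]; exact Or.inl rfl, hw⟩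
      · exact (h w (hM.transitive y hy w hw)).2 ⟨y, hy, by rw [mem_pair]; exact Or.inr rfl, hw⟩
  exact this ▸ hz

theorem succ_mem {x : ZFSet.{u}} (hx : x ∈ M) : insert x x ∈ M := by
  have h := union_mem hM (singleton_mem hM hx) hx
  have : ({x} : ZFSet.{u}) ∪ x = insert x x := by
    ext w
    rw [mem_union, mem_singleton, mem_insert_iff]
  exact this ▸ h

theorem empty_mem : (∅ : ZFSet.{u}) ∈ M := by
  obtain ⟨z, -, ⟨x, hx, -, h⟩, -⟩ := hM.infinity
  have : x = ∅ := by
    rw [eq_empty]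
    intro y hy
    exact h y (hM.transitive x hx y hy) hy
  exact this ▸ hx

theorem num_mem (n : ℕ) : num.{u} n ∈ M := by
  induction n with
  | zero => exact empty_mem hM
  | succ n ih => exact succ_mem hM ih

theorem power_mem {x : ZFSet.{u}} (hx : x ∈ M) : ∃ z ∈ M, ∀ w, w ∈ z ↔ w ∈ M ∧ w ⊆ x := by
  obtain ⟨z, hz, h⟩ := hM.power x hx
  refine ⟨z, hz, fun w => ⟨fun hw => ?_, fun hw => ?_⟩⟩
  · have hwM := hM.transitive z hz w hw
    exact ⟨hwM, fun y hy => (h w hwM).1 hw y (hM.transitive w hwM y hy) hy⟩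
  · exact (h w hw.1).2 fun y _ hy => hw.2 hy

/-- Separation. -/
theorem sep_mem' (φ : Fml) (v : ℕ → ZFSet.{u}) (hv : ∀ i, v i ∈ M) {a : ZFSet.{u}} (ha : a ∈ M) :
    ZFSet.sep (fun z => Sat M (Function.update v 0 z) φ) a ∈ M := by
  obtain ⟨b, hb, h⟩ := hM.separation φ v hv a ha
  have : b = ZFSet.sep (fun z => Sat M (Function.update v 0 z) φ) a := by
    ext w
    rw [mem_sep]
    constructor
    · intro hw
      exact (h w (hM.transitive b hb w hw)).1 hw
    · intro hw
      exact (h w (hM.transitive a ha w hw.1)).2 hw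
  exact this ▸ hb

theorem sat_isUpair {v : ℕ → ZFSet.{u}} {w x y k : ℕ} (hw : v w ∈ M) (hx : v x ∈ M)
    (hy : v y ∈ M) (h1 : k ≠ w) (h2 : k ≠ x) (h3 : k ≠ y) :
    Sat M v (isUpair w x y k) ↔ v w = {v x, v y} := by
  rw [isUpair, sat_all]
  simp only [sat_iff, sat_or, Sat, Function.update_self, Function.update_of_ne h1.symm,
    Function.update_of_ne h2.symm, Function.update_of_ne h3.symm]
  constructor
  · intro h
    ext z
    rw [mem_pair]
    constructor
    · intro hz
      exact (h z (hM.transitive _ hw z hz)).1 hz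
    · intro hz
      refine (h z ?_).2 hz
      rcases hz with rfl | rfl <;> assumption
  · intro h z _
    rw [h, mem_pair]

theorem sat_isPair {v : ℕ → ZFSet.{u}} {p x y w k : ℕ} (hp : v p ∈ M) (hx : v x ∈ M)
    (hy : v y ∈ M) (h1 : w ≠ p) (h2 : w ≠ x) (h3 : w ≠ y) (h4 : k ≠ w) (h5 : k ≠ x)
    (h6 : k ≠ y) :
    Sat M v (isPair p x y w k) ↔ v p = pair (v x) (v y) := by
  rw [isPair, sat_all]
  have key : ∀ a ∈ M, (Sat M (Function.update v w a)
      (.iff (.mem w p) (.or (isUpair w x x k) (isUpair w x y k))) ↔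
      (a ∈ v p ↔ (a = {v x, v x} ∨ a = {v x, v y}))) := by
    intro a ha
    rw [sat_iff, sat_or, sat_isUpair hM _ _ _ h4 h5 h5, sat_isUpair hM _ _ _ h4 h5 h6]
    · simp only [Sat, Function.update_self, Function.update_of_ne h1.symm,
        Function.update_of_ne h2.symm, Function.update_of_ne h3.symm]
    · rw [Function.update_self]; exact ha
    · rw [Function.update_of_ne h2.symm]; exact hx
    · rw [Function.update_of_ne h3.symm]; exact hy
    · rw [Function.update_self]; exact ha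
    · rw [Function.update_of_ne h2.symm]; exact hx
    · rw [Function.update_of_ne h2.symm]; exact hx
  constructor
  · intro h
    ext z
    rw [pair, mem_pair, ← pair_eq_singleton (v x)]
    constructor
    · intro hz
      have hzM := hM.transitive _ hp z hz
      exact ((key z hzM).1 (h z hzM)).1 hz
    · intro hz
      have hzM : z ∈ M := by
        rcases hz with rfl | rfl
        · exact upair_mem hM hx hx
        · exact upair_mem hM hx hy
      exact ((key z hzM).1 (h z hzM)).2 hz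
  · intro h a ha
    rw [key a ha, h, pair, mem_pair, pair_eq_singleton]

theorem sat_isInd {v : ℕ → ZFSet.{u}} {j e k : ℕ} (hj : v j ∈ M) (h1 : e ≠ j) (h2 : k ≠ j)
    (h3 : k ≠ e) :
    Sat M v (isInd j e k) ↔ ∅ ∈ v j ∧ ∀ y ∈ v j, insert y y ∈ v j := by
  have h5 : e + k + 1 ≠ e := by omega
  have h6 : e + k + 1 ≠ k := by omega
  rw [isInd]
  simp only [sat_iff, sat_or, sat_imp, sat_all, Sat, Function.update_self,
    Function.update_of_ne h1.symm, Function.update_of_ne h2.symm, Function.update_of_ne h3.symm,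
    Function.update_of_ne h5.symm, Function.update_of_ne h6.symm]
  refine and_congr ⟨?_, ?_⟩ ⟨?_, ?_⟩
  · rintro ⟨a, ha, haj, h⟩
    have : a = ∅ := by
      rw [eq_empty]
      intro y hy
      exact h y (hM.transitive a ha y hy) hy
    exact this ▸ haj
  · intro h
    exact ⟨∅, empty_mem hM, h, fun a _ => notMem_empty a⟩
  · intro h y hy
    have hyM := hM.transitive _ hj y hy
    obtain ⟨z, hz, hzj, h⟩ := h y hyM hy
    have : z = insert y y := by
      ext w
      rw [mem_insert_iff, or_comm]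
      constructor
      · intro hw
        exact (h w (hM.transitive z hz w hw)).1 hw
      · intro hw
        refine (h w ?_).2 hw
        rcases hw with hw | rfl
        · exact hM.transitive y hyM w hw
        · exact hyM
    exact this ▸ hzj
  · intro h a ha haj
    refine ⟨insert a a, succ_mem hM ha, h a haj, fun w _ => ?_⟩
    rw [mem_insert_iff, or_comm]

theorem omega_mem : omega.{u} ∈ M := by
  obtain ⟨I, hI, ⟨x, hx, hxI, hx0⟩, hs⟩ := hM.infinity
  have h0 : ∅ ∈ I := by
    have : x = ∅ := by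
      rw [eq_empty]
      intro y hy
      exact hx0 y (hM.transitive x hx y hy) hy
    exact this ▸ hxI
  have h1 : ∀ y ∈ I, insert y y ∈ I := by
    intro y hy
    have hyM := hM.transitive I hI y hy
    obtain ⟨z, hz, hzI, h⟩ := hs y hyM hy
    have : z = insert y y := by
      ext w
      rw [mem_insert_iff, or_comm]
      constructor
      · intro hw
        exact (h w (hM.transitive z hz w hw)).1 hw
      · intro hw
        refine (h w ?_).2 hw
        rcases hw with hw | rfl
        · exact hM.transitive y hyM w hw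
        · exact hyM
    exact this ▸ hzI
  set φ : Fml := .all 1 (.imp (isInd 1 2 3) (.mem 0 1)) with hφ
  have hW := sep_mem' hM φ (fun _ => ∅) (fun _ => empty_mem hM) hI
  set W := ZFSet.sep (fun z => Sat M (Function.update (fun _ => ∅) 0 z) φ) I with hWdef
  have memW : ∀ w, w ∈ W ↔ w ∈ I ∧ ∀ J ∈ M, (∅ ∈ J ∧ ∀ y ∈ J, insert y y ∈ J) → w ∈ J := by
    intro w
    rw [hWdef, mem_sep, hφ, sat_all]
    refine and_congr Iff.rfl ?_
    refine forall_congr' fun J => ?_
    refine forall_congr' fun hJ => ?_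
    rw [sat_imp, sat_isInd hM _ (by decide) (by decide) (by decide)]
    · simp [Sat]
    · simpa using hJ
  have hWω : W = omega := by
    ext w
    constructor
    · intro hw
      by_contra hcon
      have hne : ZFSet.sep (fun z => z ∉ omega) W ≠ ∅ := by
        intro h
        have : w ∈ ZFSet.sep (fun z => z ∉ omega) W := by
          rw [mem_sep]; exact ⟨hw, hcon⟩
        rw [h] at this
        exact notMem_empty _ this
      obtain ⟨m, hm, hmin⟩ := regularity _ hne
      rw [mem_sep] at hm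
      have hmM : m ∈ M := hM.transitive _ hW m hm.1
      set J := W \ {m} with hJ
      have hJM : J ∈ M := by
        have := sep_mem' hM (.neg (.eq 0 1)) (fun _ => m) (fun _ => hmM) hW
        have h2 : ZFSet.sep (fun z => Sat M (Function.update (fun _ => m) 0 z) (.neg (.eq 0 1))) W
            = J := by
          ext z
          rw [mem_sep, hJ, mem_sdiff, mem_singleton]
          simp [Sat]
        exact h2 ▸ this
      have hJind : ∅ ∈ J ∧ ∀ y ∈ J, insert y y ∈ J := by
        constructor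
        · rw [hJ, mem_sdiff, mem_singleton, memW]
          refine ⟨⟨h0, fun J _ hJ => hJ.1⟩, ?_⟩
          rintro rfl
          exact hm.2 omega_zero
        · intro y hy
          rw [hJ, mem_sdiff, mem_singleton] at hy ⊢
          have hyW := (memW y).1 hy.1
          refine ⟨(memW _).2 ⟨h1 y hyW.1, fun J hJ hJi => hJi.2 y (hyW.2 J hJ hJi)⟩, ?_⟩
          intro heq
          have hym : y ∈ m := heq ▸ mem_insert y y
          have : y ∈ omega := by
            by_contra hyo
            have : y ∈ ZFSet.sep (fun z => z ∉ omega) W ∩ m := by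
              rw [mem_inter, mem_sep]
              exact ⟨⟨hy.1, hyo⟩, hym⟩
            rw [hmin] at this
            exact notMem_empty _ this
          exact hm.2 (heq ▸ omega_succ this)
      have := ((memW m).1 hm.1).2 J hJM hJind
      rw [hJ, mem_sdiff] at this
      exact this.2 (mem_singleton.2 rfl)
    · intro hw
      obtain ⟨n, rfl⟩ := mem_omega.1 hw
      have : ∀ n, ∀ J : ZFSet.{u}, (∅ ∈ J ∧ ∀ y ∈ J, insert y y ∈ J) → num.{u} n ∈ J := by
        intro n J hJ
        induction n with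
        | zero => exact hJ.1
        | succ n ih => exact hJ.2 _ ih
      exact (memW _).2 ⟨this n I ⟨h0, h1⟩, fun J _ hJ => this n J hJ⟩
  exact hWω ▸ hW

theorem inter_mem {x y : ZFSet.{u}} (hx : x ∈ M) (hy : y ∈ M) : x ∩ y ∈ M := by
  have := sep_mem' hM (.mem 0 1) (fun _ => y) (fun _ => hy) hx
  have h2 : ZFSet.sep (fun z => Sat M (Function.update (fun _ => y) 0 z) (.mem 0 1)) x
      = x ∩ y := by
    ext z
    rw [mem_sep, mem_inter]
    simp [Sat]
  exact h2 ▸ this

theorem sdiff_mem {x y : ZFSet.{u}} (hx : x ∈ M) (hy : y ∈ M) : x \ y ∈ M := by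
  have := sep_mem' hM (.neg (.mem 0 1)) (fun _ => y) (fun _ => hy) hx
  have h2 : ZFSet.sep (fun z => Sat M (Function.update (fun _ => y) 0 z) (.neg (.mem 0 1))) x
      = x \ y := by
    ext z
    rw [mem_sep, mem_sdiff]
    simp [Sat]
  exact h2 ▸ this

end Model

/-! ### From a colouring in a model to an ultrafilter in the model -/

theorem adj_of_edge {x y : Pt} (h : Edge x y) (hne : x ≠ y) : Gr.Adj x y := by
  rw [Gr, SimpleGraph.fromRel_adj]
  exact ⟨hne, Or.inl h⟩

section Extract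

variable {M : Set ZFSet.{u}} (hM : TransitiveModel M)

include hM

theorem ultrafilter_of_colouring {c : ZFSet.{u}} (hcM : c ∈ M) (hc : IsColouringIn M Gr 3 c) :
    ∃ U ∈ M, IsUltrafilterIn M U := by
  classical
  -- the colour of a point of the model
  obtain ⟨col, hcol⟩ : ∃ col : Pt → ℕ, ∀ x, code.{u} x ∈ M →
      (∀ j, pair (code x) (num j) ∈ c ↔ j = col x) ∧ col x < 3 := by
    have h : ∀ x : Pt, ∃ k : ℕ, code.{u} x ∈ M →
        (∀ j, pair (code x) (num j) ∈ c ↔ j = k) ∧ k < 3 := by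
      intro x
      by_cases hx : code.{u} x ∈ M
      · obtain ⟨k, hk, hk'⟩ := hc.val x hx
        refine ⟨k, fun _ => ⟨fun j => ⟨fun hj => hk' j hj, fun hj => hj ▸ hk⟩, ?_⟩⟩
        obtain ⟨y, j, hj, -, he⟩ := hc.sub _ hk
        rw [pair_inj, num_inj] at he
        have := he.2
        omega
      · exact ⟨0, fun h => absurd h hx⟩
    choose col hcol using h
    exact ⟨col, hcol⟩
  have hadj : ∀ x y, code.{u} x ∈ M → code.{u} y ∈ M → Edge x y → x ≠ y → col x ≠ col y := by
    intro x y hx hy he hne heq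
    exact hc.proper x y hx hy (adj_of_edge he hne) (col x)
      ⟨((hcol x hx).1 _).2 rfl, ((hcol y hy).1 _).2 heq⟩
  -- codes in the model
  have cP : ∀ i : Fin 3, code.{u} (.inl i) ∈ M := fun i =>
    pair_mem hM (num_mem hM 0) (num_mem hM i)
  have cV : ∀ a, real.{u} a ∈ M → code.{u} (.inr (.inl a)) ∈ M := fun a ha =>
    pair_mem hM (num_mem hM 1) ha
  have cG : ∀ a b i, real.{u} a ∈ M → real.{u} b ∈ M →
      code.{u} (.inr (.inr (a, b, i))) ∈ M := fun a b i ha hb =>
    pair_mem hM (num_mem hM 2) (pair_mem hM ha (pair_mem hM hb (num_mem hM _)))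
  have rc : ∀ a, real.{u} a ∈ M → real.{u} (cpl a) ∈ M := fun a ha => by
    rw [real_cpl]; exact sdiff_mem hM (omega_mem hM) ha
  have ri : ∀ a b, real.{u} a ∈ M → real.{u} b ∈ M → real.{u} (inf a b) ∈ M := fun a b ha hb => by
    rw [real_inf]; exact inter_mem hM ha hb
  -- the palette
  have p01 : col (.inl 0) ≠ col (.inl 1) := hadj _ _ (cP 0) (cP 1)
    (Or.inl ⟨0, 1, by decide, rfl, rfl⟩) (by simp)
  have p02 : col (.inl 0) ≠ col (.inl 2) := hadj _ _ (cP 0) (cP 2)
    (Or.inl ⟨0, 2, by decide, rfl, rfl⟩) (by simp)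
  have p12 : col (.inl 1) ≠ col (.inl 2) := hadj _ _ (cP 1) (cP 2)
    (Or.inl ⟨1, 2, by decide, rfl, rfl⟩) (by simp)
  have b0 := (hcol _ (cP 0)).2
  have b1 := (hcol _ (cP 1)).2
  have b2 := (hcol _ (cP 2)).2
  -- every vertex of a set is true or false
  have tf : ∀ a, real.{u} a ∈ M → col (.inr (.inl a)) = col (.inl 0) ∨
      col (.inr (.inl a)) = col (.inl 1) := by
    intro a ha
    have h1 := (hcol _ (cV a ha)).2
    have h2 : col (.inl 2) ≠ col (.inr (.inl a)) := hadj _ _ (cP 2) (cV a ha)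
      (Or.inr (Or.inl ⟨a, rfl, rfl⟩)) (by simp)
    omega
  have small : ∀ a, real.{u} a ∈ M → (∀ n m, a n = true → a m = true → n = m) →
      col (.inr (.inl a)) ≠ col (.inl 0) := by
    intro a ha h
    exact (hadj _ _ (cP 0) (cV a ha) (Or.inr (Or.inr (Or.inl ⟨a, h, rfl, rfl⟩))) (by simp)).symm
  have comp : ∀ a, real.{u} a ∈ M → (col (.inr (.inl a)) = col (.inl 0) ↔
      col (.inr (.inl (cpl a))) ≠ col (.inl 0)) := by
    intro a ha
    have hne : (Sum.inr (Sum.inl a) : Pt) ≠ .inr (.inl (cpl a)) := by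
      intro h
      have h1 := Sum.inl_injective (Sum.inr_injective h)
      have h2 := congrFun h1 0
      simp [cpl] at h2
    have h1 := hadj _ _ (cV a ha) (cV _ (rc a ha))
      (Or.inr (Or.inr (Or.inr (Or.inl ⟨a, rfl, rfl⟩)))) hne
    have h2 := tf a ha
    have h3 := tf _ (rc a ha)
    omega
  have inter : ∀ a b, real.{u} a ∈ M → real.{u} b ∈ M → col (.inr (.inl a)) = col (.inl 0) →
      col (.inr (.inl b)) = col (.inl 0) → col (.inr (.inl (inf a b))) = col (.inl 0) := by
    intro a b ha hb h1 h2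
    by_contra h3
    have x1 := tf _ (rc a ha)
    have y1 := tf _ (rc b hb)
    have z1 := tf _ (ri a b ha hb)
    have x2 := (comp a ha).1 h1
    have y2 := (comp b hb).1 h2
    have e1 := hadj _ _ (cV _ (rc a ha)) (cG a b 0 ha hb)
      (Or.inr (Or.inr (Or.inr (Or.inr (Or.inl ⟨a, b, rfl, rfl⟩))))) (by simp)
    have e2 := hadj _ _ (cV _ (rc b hb)) (cG a b 1 ha hb)
      (Or.inr (Or.inr (Or.inr (Or.inr (Or.inr (Or.inl ⟨a, b, rfl, rfl⟩)))))) (by simp)
    have e3 := hadj _ _ (cV _ (ri a b ha hb)) (cG a b 4 ha hb)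
      (Or.inr (Or.inr (Or.inr (Or.inr (Or.inr (Or.inr (Or.inl ⟨a, b, rfl, rfl⟩))))))) (by simp)
    have gg : ∀ i j : Fin 5, (i, j) ∈ ({(0, 1), (0, 2), (1, 2), (2, 3), (3, 4)} : Finset _) →
        i ≠ j → col (.inr (.inr (a, b, i))) ≠ col (.inr (.inr (a, b, j))) := by
      intro i j hij hne
      refine hadj _ _ (cG a b i ha hb) (cG a b j ha hb)
        (Or.inr (Or.inr (Or.inr (Or.inr (Or.inr (Or.inr (Or.inr (Or.inl
          ⟨a, b, i, j, hij, rfl, rfl⟩)))))))) ?_
      intro h
      simp only [Sum.inr.injEq, Prod.mk.injEq, true_and] at h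
      exact hne h
    have pg : ∀ i : Fin 5, i ∈ ({3, 4} : Finset _) →
        col (.inl 0) ≠ col (.inr (.inr (a, b, i))) := by
      intro i hi
      exact hadj _ _ (cP 0) (cG a b i ha hb)
        (Or.inr (Or.inr (Or.inr (Or.inr (Or.inr (Or.inr (Or.inr (Or.inr
          ⟨a, b, i, hi, rfl, rfl⟩)))))))) (by simp)
    have g01 := gg 0 1 (by decide) (by decide)
    have g02 := gg 0 2 (by decide) (by decide)
    have g12 := gg 1 2 (by decide) (by decide)
    have g23 := gg 2 3 (by decide) (by decide)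
    have g34 := gg 3 4 (by decide) (by decide)
    have q3 := pg 3 (by decide)
    have q4 := pg 4 (by decide)
    have l0 := (hcol _ (cG a b 0 ha hb)).2
    have l1 := (hcol _ (cG a b 1 ha hb)).2
    have l2 := (hcol _ (cG a b 2 ha hb)).2
    have l3 := (hcol _ (cG a b 3 ha hb)).2
    have l4 := (hcol _ (cG a b 4 ha hb)).2
    -- the gadget cannot be coloured
    have r2 : col (.inr (.inr (a, b, 2))) = col (.inl 1) := by omega
    have r3 : col (.inr (.inr (a, b, 3))) = col (.inl 2) := by omega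
    have r4 : col (.inr (.inr (a, b, 4))) = col (.inl 2) := by omega
    omega
  -- the ultrafilter
  obtain ⟨P, hP, memP⟩ := power_mem hM (omega_mem hM)
  set U := ZFSet.sep (fun A => pair (pair (num 1) A) (num (col (.inl 0))) ∈ c) P with hU
  have hUM : U ∈ M := by
    set v : ℕ → ZFSet.{u} := fun i => if i = 1 then c else if i = 2 then num 1 else
      num (col (.inl 0)) with hv
    have hvM : ∀ i, v i ∈ M := by
      intro i
      simp only [hv]
      split_ifs
      · exact hcM
      · exact num_mem hM 1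
      · exact num_mem hM _
    have := sep_mem' hM (.ex 4 (.ex 5 (.and (isPair 4 2 0 6 7)
      (.and (isPair 5 4 3 6 7) (.mem 5 1))))) v hvM hP
    have h2 : ZFSet.sep (fun z => Sat M (Function.update v 0 z) (.ex 4 (.ex 5
        (.and (isPair 4 2 0 6 7) (.and (isPair 5 4 3 6 7) (.mem 5 1)))))) P = U := by
      ext A
      rw [hU, mem_sep, mem_sep]
      refine and_congr_right fun hA => ?_
      have hAM : A ∈ M := ((memP A).1 hA).1
      have key : ∀ q ∈ M, ∀ p ∈ M, (Sat M (Function.update (Function.update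
          (Function.update v 0 A) 4 q) 5 p) (.and (isPair 4 2 0 6 7)
            (.and (isPair 5 4 3 6 7) (.mem 5 1))) ↔
          (q = pair (num 1) A ∧ p = pair q (num (col (.inl 0))) ∧ p ∈ c)) := by
        intro q hq p hp
        simp only [Sat]
        rw [sat_isPair hM _ _ _ (by decide) (by decide) (by decide) (by decide) (by decide)
          (by decide), sat_isPair hM _ _ _ (by decide) (by decide) (by decide) (by decide)
          (by decide) (by decide)]
        · simp [hv]
        · simpa using hp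
        · simpa using hq
        · simp [hv]; exact num_mem hM _
        · simpa using hq
        · simp [hv]; exact num_mem hM _
        · simpa using hAM
      constructor
      · rintro ⟨q, hq, p, hp, h⟩
        obtain ⟨h1, h2, h3⟩ := (key q hq p hp).1 h
        rw [h2, h1] at h3
        exact h3
      · intro h
        exact ⟨_, pair_mem hM (num_mem hM 1) hAM, _, hM.transitive _ hcM _ h,
          (key _ (pair_mem hM (num_mem hM 1) hAM) _ (hM.transitive _ hcM _ h)).2 ⟨rfl, rfl, h⟩⟩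
    exact h2 ▸ this
  have memU : ∀ A, A ∈ U ↔ A ∈ M ∧ A ⊆ omega ∧ col (.inr (.inl (chi A))) = col (.inl 0) := by
    intro A
    rw [hU, mem_sep, memP, and_assoc]
    refine and_congr_right fun hA => and_congr_right fun hA' => ?_
    have h1 : real (chi A) = A := real_chi hA'
    have h2 : code.{u} (.inr (.inl (chi A))) = pair (num 1) A := by rw [code, h1]
    rw [← h2, (hcol _ (cV _ (h1.symm ▸ hA))).1]
    exact eq_comm
  have memU' : ∀ a, real.{u} a ∈ M → (real a ∈ U ↔ col (.inr (.inl a)) = col (.inl 0)) := by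
    intro a ha
    have h1 : chi (real.{u} a) = a := real_inj (real_chi (real_sub a))
    rw [memU, h1]
    exact ⟨fun h => h.2.2, fun h => ⟨ha, real_sub a, h⟩⟩
  have compl : ∀ A ∈ M, A ⊆ omega → (A ∈ U ↔ omega \ A ∉ U) := by
    intro A hA hAo
    have h1 : real (chi A) = A := real_chi hAo
    have h2 : real.{u} (chi A) ∈ M := h1.symm ▸ hA
    have h3 := memU' (chi A) h2
    have h4 := memU' (cpl (chi A)) (rc _ h2)
    rw [real_cpl, h1] at h4
    rw [h1] at h3
    rw [h3, h4]
    exact comp _ h2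
  have hinter : ∀ A ∈ U, ∀ B ∈ U, A ∩ B ∈ U := by
    intro A hA B hB
    obtain ⟨hA1, hA2, hA3⟩ := (memU A).1 hA
    obtain ⟨hB1, hB2, hB3⟩ := (memU B).1 hB
    have h1 : real (chi A) = A := real_chi hA2
    have h2 : real (chi B) = B := real_chi hB2
    have h3 : real.{u} (chi A) ∈ M := h1.symm ▸ hA1
    have h4 : real.{u} (chi B) ∈ M := h2.symm ▸ hB1
    have h5 := (memU' _ (ri _ _ h3 h4)).2 (inter _ _ h3 h4 hA3 hB3)
    rwa [real_inf, h1, h2] at h5
  have hsmall : ∀ A ∈ M, (∀ x ∈ A, ∀ y ∈ A, x = y) → A ⊆ omega → A ∉ U := by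
    intro A hA h hAo hAU
    obtain ⟨-, -, h3⟩ := (memU A).1 hAU
    have h1 : real (chi A) = A := real_chi hAo
    refine small (chi A) (h1.symm ▸ hA) ?_ h3
    intro n m hn hm
    have h4 := num_mem_real.{u}.2 hn
    have h5 := num_mem_real.{u}.2 hm
    rw [h1] at h4 h5
    exact num_inj.{u}.1 (h _ h4 _ h5)
  have hempty : (∅ : ZFSet.{u}) ∉ U :=
    hsmall ∅ (empty_mem hM) (fun x hx => absurd hx (notMem_empty x)) (empty_subset _)
  refine ⟨U, hUM, ⟨fun A hA => ((memU A).1 hA).2.1, ?_, hinter, ?_, compl, ?_⟩⟩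
  · rw [compl omega (omega_mem hM) (fun _ h => h)]
    have : omega.{u} \ omega = ∅ := by
      rw [eq_empty]
      intro y hy
      rw [mem_sdiff] at hy
      exact hy.2 hy.1
    rw [this]
    exact hempty
  · intro A hA B hB hAB hBo
    by_contra hcon
    have h1 : omega \ B ∈ U := by
      by_contra h
      exact hcon ((compl B hB hBo).2 h)
    have h2 := hinter A hA _ h1
    have : A ∩ (omega \ B) = ∅ := by
      rw [eq_empty]
      intro y hy
      rw [mem_inter, mem_sdiff] at hy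
      exact hy.2.2 (hAB hy.1)
    rw [this] at h2
    exact hempty h2
  · intro n hn
    have hnM : n ∈ M := hM.transitive _ (omega_mem hM) n hn
    refine hsmall _ (singleton_mem hM hnM) ?_ ?_
    · intro x hx y hy
      rw [mem_singleton] at hx hy
      rw [hx, hy]
    · intro x hx
      rw [mem_singleton] at hx
      exact hx ▸ hn

end Extract

/-! ### The graph is Borel -/

theorem continuous_cpl : Continuous cpl :=
  continuous_pi fun n => (continuous_of_discreteTopology (f := fun b : Bool => !b)).comp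
    (continuous_apply n)

theorem continuous_inf : Continuous fun q : (ℕ → Bool) × (ℕ → Bool) => inf q.1 q.2 := by
  refine continuous_pi fun n => ?_
  have h1 : Continuous fun q : (ℕ → Bool) × (ℕ → Bool) => (q.1 n, q.2 n) :=
    ((continuous_apply n).comp continuous_fst).prodMk ((continuous_apply n).comp continuous_snd)
  exact (continuous_of_discreteTopology (f := fun b : Bool × Bool => b.1 && b.2)).comp h1

theorem isClosed_edge : IsClosed {p : Pt × Pt | Edge p.1 p.2} := by
  have h1 : IsClosed {p : Pt × Pt | ∃ i j : Fin 3, i ≠ j ∧ p.1 = .inl i ∧ p.2 = .inl j} := by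
    have : {p : Pt × Pt | ∃ i j : Fin 3, i ≠ j ∧ p.1 = .inl i ∧ p.2 = .inl j} =
        (fun q : Fin 3 × Fin 3 => ((Sum.inl q.1, Sum.inl q.2) : Pt × Pt)) '' {q | q.1 ≠ q.2} := by
      ext ⟨x, y⟩
      constructor
      · rintro ⟨i, j, h, h1, h2⟩
        exact ⟨(i, j), h, Prod.ext h1.symm h2.symm⟩
      · rintro ⟨⟨i, j⟩, h, h1⟩
        simp only [Prod.mk.injEq] at h1
        exact ⟨i, j, h, h1.1.symm, h1.2.symm⟩
    rw [this]
    exact ((Set.toFinite _).image _).isClosed
  have h2 : IsClosed {p : Pt × Pt | ∃ a, p.1 = .inl 2 ∧ p.2 = .inr (.inl a)} := by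
    have : {p : Pt × Pt | ∃ a, p.1 = .inl 2 ∧ p.2 = .inr (.inl a)} =
        Set.range (fun a : ℕ → Bool => ((Sum.inl 2, Sum.inr (Sum.inl a)) : Pt × Pt)) := by
      ext ⟨x, y⟩
      constructor
      · rintro ⟨a, h1, h2⟩
        exact ⟨a, Prod.ext h1.symm h2.symm⟩
      · rintro ⟨a, h1⟩
        simp only [Prod.mk.injEq] at h1
        exact ⟨a, h1.1.symm, h1.2.symm⟩
    rw [this]
    exact (isCompact_range (by fun_prop)).isClosed
  have h3 : IsClosed {p : Pt × Pt | ∃ a, (∀ n m, a n = true → a m = true → n = m) ∧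
      p.1 = .inl 0 ∧ p.2 = .inr (.inl a)} := by
    have : {p : Pt × Pt | ∃ a, (∀ n m, a n = true → a m = true → n = m) ∧
        p.1 = .inl 0 ∧ p.2 = .inr (.inl a)} =
        (fun a : ℕ → Bool => ((Sum.inl 0, Sum.inr (Sum.inl a)) : Pt × Pt)) ''
          {a | ∀ n m, a n = true → a m = true → n = m} := by
      ext ⟨x, y⟩
      constructor
      · rintro ⟨a, h, h1, h2⟩
        exact ⟨a, h, Prod.ext h1.symm h2.symm⟩
      · rintro ⟨a, h, h1⟩
        simp only [Prod.mk.injEq] at h1
        exact ⟨a, h, h1.1.symm, h1.2.symm⟩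
    rw [this]
    have hcl : IsClosed {a : ℕ → Bool | ∀ n m, a n = true → a m = true → n = m} := by
      simp only [Set.ofPred_forall]
      refine isClosed_iInter fun n => isClosed_iInter fun m => ?_
      have : {a : ℕ → Bool | a n = true → a m = true → n = m} =
          (fun a : ℕ → Bool => (a n, a m)) ⁻¹' {b | b.1 = true → b.2 = true → n = m} := rfl
      rw [this]
      exact (isClosed_discrete _).preimage (by fun_prop)
    exact (hcl.isCompact.image (by fun_prop)).isClosed
  have h4 : IsClosed {p : Pt × Pt | ∃ a, p.1 = .inr (.inl a) ∧ p.2 = .inr (.inl (cpl a))} := by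
    have : {p : Pt × Pt | ∃ a, p.1 = .inr (.inl a) ∧ p.2 = .inr (.inl (cpl a))} =
        Set.range (fun a : ℕ → Bool =>
          ((Sum.inr (Sum.inl a), Sum.inr (Sum.inl (cpl a))) : Pt × Pt)) := by
      ext ⟨x, y⟩
      constructor
      · rintro ⟨a, h1, h2⟩
        exact ⟨a, Prod.ext h1.symm h2.symm⟩
      · rintro ⟨a, h1⟩
        simp only [Prod.mk.injEq] at h1
        exact ⟨a, h1.1.symm, h1.2.symm⟩
    rw [this]
    have := continuous_cpl
    exact (isCompact_range (by fun_prop)).isClosed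
  have gen : ∀ (f : (ℕ → Bool) × (ℕ → Bool) → ℕ → Bool) (i : Fin 5), Continuous f →
      IsClosed {p : Pt × Pt | ∃ a b, p.1 = .inr (.inl (f (a, b))) ∧
        p.2 = .inr (.inr (a, b, i))} := by
    intro f i hf
    have : {p : Pt × Pt | ∃ a b, p.1 = .inr (.inl (f (a, b))) ∧ p.2 = .inr (.inr (a, b, i))} =
        Set.range (fun q : (ℕ → Bool) × (ℕ → Bool) =>
          ((Sum.inr (Sum.inl (f q)), Sum.inr (Sum.inr (q.1, q.2, i))) : Pt × Pt)) := by
      ext ⟨x, y⟩
      constructor
      · rintro ⟨a, b, h1, h2⟩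
        exact ⟨(a, b), Prod.ext h1.symm h2.symm⟩
      · rintro ⟨⟨a, b⟩, h1⟩
        simp only [Prod.mk.injEq] at h1
        exact ⟨a, b, h1.1.symm, h1.2.symm⟩
    rw [this]
    exact (isCompact_range (by fun_prop)).isClosed
  have h5 := gen (fun q => cpl q.1) 0 (continuous_cpl.comp continuous_fst)
  have h6 := gen (fun q => cpl q.2) 1 (continuous_cpl.comp continuous_snd)
  have h7 := gen (fun q => inf q.1 q.2) 4 continuous_inf
  have h8 : IsClosed {p : Pt × Pt | ∃ a b, ∃ i j : Fin 5,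
      (i, j) ∈ ({(0, 1), (0, 2), (1, 2), (2, 3), (3, 4)} : Finset _) ∧
      p.1 = .inr (.inr (a, b, i)) ∧ p.2 = .inr (.inr (a, b, j))} := by
    have : {p : Pt × Pt | ∃ a b, ∃ i j : Fin 5,
        (i, j) ∈ ({(0, 1), (0, 2), (1, 2), (2, 3), (3, 4)} : Finset _) ∧
        p.1 = .inr (.inr (a, b, i)) ∧ p.2 = .inr (.inr (a, b, j))} =
        (fun q : ((ℕ → Bool) × (ℕ → Bool)) × (Fin 5 × Fin 5) =>
          ((Sum.inr (Sum.inr (q.1.1, q.1.2, q.2.1)),
            Sum.inr (Sum.inr (q.1.1, q.1.2, q.2.2))) : Pt × Pt)) ''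
          {q | q.2 ∈ ({(0, 1), (0, 2), (1, 2), (2, 3), (3, 4)} : Finset _)} := by
      ext ⟨x, y⟩
      constructor
      · rintro ⟨a, b, i, j, h, h1, h2⟩
        exact ⟨((a, b), (i, j)), h, Prod.ext h1.symm h2.symm⟩
      · rintro ⟨⟨⟨a, b⟩, ⟨i, j⟩⟩, h, h1⟩
        simp only [Prod.mk.injEq] at h1
        exact ⟨a, b, i, j, h, h1.1.symm, h1.2.symm⟩
    rw [this]
    have hcl : IsClosed {q : ((ℕ → Bool) × (ℕ → Bool)) × (Fin 5 × Fin 5) |
        q.2 ∈ ({(0, 1), (0, 2), (1, 2), (2, 3), (3, 4)} : Finset _)} :=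
      (isClosed_discrete {r : Fin 5 × Fin 5 |
        r ∈ ({(0, 1), (0, 2), (1, 2), (2, 3), (3, 4)} : Finset _)}).preimage continuous_snd
    exact (hcl.isCompact.image (by fun_prop)).isClosed
  have h9 : IsClosed {p : Pt × Pt | ∃ a b, ∃ i : Fin 5, i ∈ ({3, 4} : Finset _) ∧
      p.1 = .inl 0 ∧ p.2 = .inr (.inr (a, b, i))} := by
    have : {p : Pt × Pt | ∃ a b, ∃ i : Fin 5, i ∈ ({3, 4} : Finset _) ∧
        p.1 = .inl 0 ∧ p.2 = .inr (.inr (a, b, i))} =
        (fun q : ((ℕ → Bool) × (ℕ → Bool)) × Fin 5 =>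
          ((Sum.inl 0, Sum.inr (Sum.inr (q.1.1, q.1.2, q.2))) : Pt × Pt)) ''
          {q | q.2 ∈ ({3, 4} : Finset _)} := by
      ext ⟨x, y⟩
      constructor
      · rintro ⟨a, b, i, h, h1, h2⟩
        exact ⟨((a, b), i), h, Prod.ext h1.symm h2.symm⟩
      · rintro ⟨⟨⟨a, b⟩, i⟩, h, h1⟩
        simp only [Prod.mk.injEq] at h1
        exact ⟨a, b, i, h, h1.1.symm, h1.2.symm⟩
    rw [this]
    have hcl : IsClosed {q : ((ℕ → Bool) × (ℕ → Bool)) × Fin 5 |
        q.2 ∈ ({3, 4} : Finset (Fin 5))} :=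
      (isClosed_discrete {r : Fin 5 | r ∈ ({3, 4} : Finset (Fin 5))}).preimage continuous_snd
    exact (hcl.isCompact.image (by fun_prop)).isClosed
  exact h1.union (h2.union (h3.union (h4.union (h5.union (h6.union (h7.union (h8.union h9)))))))

theorem borel_gr : @MeasurableSet (Pt × Pt) (borel (Pt × Pt)) {p : Pt × Pt | Gr.Adj p.1 p.2} := by
  let _ : MeasurableSpace (Pt × Pt) := borel (Pt × Pt)
  have _ : BorelSpace (Pt × Pt) := ⟨rfl⟩
  have h1 : MeasurableSet {p : Pt × Pt | Edge p.1 p.2} := isClosed_edge.measurableSet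
  have h2 : MeasurableSet {p : Pt × Pt | Edge p.2 p.1} :=
    (isClosed_edge.preimage continuous_swap).measurableSet
  have h3 : MeasurableSet {p : Pt × Pt | p.1 ≠ p.2} :=
    (isClosed_eq continuous_fst continuous_snd).measurableSet.compl
  have : {p : Pt × Pt | Gr.Adj p.1 p.2} = {p : Pt × Pt | p.1 ≠ p.2} ∩
      ({p : Pt × Pt | Edge p.1 p.2} ∪ {p : Pt × Pt | Edge p.2 p.1}) := by
    ext p
    rw [Set.mem_ofPred_eq, Gr, SimpleGraph.fromRel_adj]
    rfl
  rw [this]
  exact h3.inter (h1.union h2)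

/-! ### Chromatic number and colouring number -/

/-- Truth with respect to a nonprincipal ultrafilter. -/
noncomputable def tau (a : ℕ → Bool) : Bool := by
  classical exact decide ({n | a n = true} ∈ Filter.hyperfilter ℕ)

theorem tau_eq {a : ℕ → Bool} : tau a = true ↔ {n | a n = true} ∈ Filter.hyperfilter ℕ := by
  simp [tau]

theorem tau_cpl (a : ℕ → Bool) : tau (cpl a) = !tau a := by
  rw [Bool.eq_iff_iff, tau_eq]
  have : {n | cpl a n = true} = {n | a n = true}ᶜ := by
    ext n; simp [cpl]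
  rw [this, Ultrafilter.compl_mem_iff_notMem, Bool.not_eq_true', ← tau_eq, Bool.not_eq_true]

theorem tau_inf (a b : ℕ → Bool) : tau (inf a b) = (tau a && tau b) := by
  rw [Bool.eq_iff_iff, tau_eq, Bool.and_eq_true, tau_eq, tau_eq]
  have : {n | inf a b n = true} = {n | a n = true} ∩ {n | b n = true} := by
    ext n; simp [inf]
  rw [this]
  exact Filter.inter_mem_iff

theorem tau_small {a : ℕ → Bool} (h : ∀ n m, a n = true → a m = true → n = m) :
    tau a = false := by
  rw [← Bool.not_eq_true, tau_eq]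
  refine Filter.notMem_hyperfilter_of_finite (Set.Subsingleton.finite ?_)
  intro n hn m hm
  exact h n m hn hm

/-- The colour of a set vertex. -/
def tv (s : Bool) : Fin 3 := if s then 0 else 1

/-- The colours of the gadget. -/
def tab (s t : Bool) (i : Fin 5) : Fin 3 :=
  if s && t then ![0, 2, 1, 2, 1] i
  else if s then ![2, 1, 0, 1, 2] i
  else ![1, 2, 0, 1, 2] i

/-- The colouring given by a nonprincipal ultrafilter. -/
noncomputable def colour : Pt → Fin 3
  | .inl i => i
  | .inr (.inl a) => tv (tau a)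
  | .inr (.inr (a, b, i)) => tab (tau a) (tau b) i

theorem colour_edge {x y : Pt} (h : Edge x y) : colour x ≠ colour y := by
  rcases h with ⟨i, j, h, rfl, rfl⟩ | ⟨a, rfl, rfl⟩ | ⟨a, h, rfl, rfl⟩ | ⟨a, rfl, rfl⟩ |
    ⟨a, b, rfl, rfl⟩ | ⟨a, b, rfl, rfl⟩ | ⟨a, b, rfl, rfl⟩ | ⟨a, b, i, j, h, rfl, rfl⟩ |
    ⟨a, b, i, h, rfl, rfl⟩
  · exact h
  · simp only [colour]
    generalize tau a = s
    revert s; decide
  · simp only [colour, tau_small h]
    decide
  · simp only [colour, tau_cpl]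
    generalize tau a = s
    revert s; decide
  · simp only [colour, tau_cpl]
    generalize tau a = s
    generalize tau b = t
    revert s t; decide
  · simp only [colour, tau_cpl]
    generalize tau a = s
    generalize tau b = t
    revert s t; decide
  · simp only [colour, tau_inf]
    generalize tau a = s
    generalize tau b = t
    revert s t; decide
  · simp only [colour]
    generalize tau a = s
    generalize tau b = t
    revert s t i j; decide
  · simp only [colour]
    generalize tau a = s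
    generalize tau b = t
    revert s t i; decide

theorem colorable : Gr.Colorable 3 := by
  refine ⟨SimpleGraph.Coloring.mk colour ?_⟩
  intro x y h
  rw [Gr, SimpleGraph.fromRel_adj] at h
  rcases h.2 with h | h
  · exact colour_edge h
  · exact (colour_edge h).symm

theorem chromaticNumber_gr : Gr.chromaticNumber = 3 := by
  refine le_antisymm colorable.chromaticNumber_le ?_
  have hcl : Gr.IsClique (↑(Finset.univ.map ⟨Sum.inl, Sum.inl_injective⟩ : Finset Pt) : Set Pt) := by
    intro x hx y hy hne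
    rw [Finset.mem_coe, Finset.mem_map] at hx hy
    obtain ⟨i, -, rfl⟩ := hx
    obtain ⟨j, -, rfl⟩ := hy
    refine adj_of_edge (Or.inl ⟨i, j, ?_, rfl, rfl⟩) hne
    rintro rfl
    exact hne rfl
  have := hcl.card_le_chromaticNumber
  rwa [Finset.card_map, Finset.card_univ, Fintype.card_fin] at this

/-- The order showing that the colouring number is countable. -/
def ord : Pt → Pt → Prop :=
  Sum.Lex (· < ·) (Sum.Lex WellOrderingRel WellOrderingRel)

theorem ord_wo : IsWellOrder Pt ord := by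
  unfold ord
  infer_instance

theorem ord_finite (y : Pt) : {x | ord x y ∧ Gr.Adj x y}.Finite := by
  have hadj : ∀ x y, Gr.Adj x y ↔ x ≠ y ∧ (Edge x y ∨ Edge y x) := fun x y => by
    rw [Gr, SimpleGraph.fromRel_adj]
  have hpal : (Set.range (Sum.inl : Fin 3 → Pt)).Finite := Set.finite_range _
  rcases y with i | a | ⟨a, b, i⟩
  · refine hpal.subset ?_
    rintro x ⟨h, -⟩
    rcases x with j | x
    · exact ⟨j, rfl⟩
    · cases h
  · refine (hpal.union (Set.finite_singleton (Sum.inr (Sum.inl (cpl a))))).subset ?_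
    rintro x ⟨h, h2⟩
    rw [hadj] at h2
    rcases x with j | x | ⟨x, z, j⟩
    · exact Or.inl ⟨j, rfl⟩
    · right
      rw [Set.mem_singleton_iff]
      rcases h2.2 with h3 | h3
      · rcases h3 with ⟨i, j, h, h1, h2⟩ | ⟨a', h1, h2⟩ | ⟨a', h, h1, h2⟩ | ⟨a', h1, h2⟩ |
          ⟨a', b, h1, h2⟩ | ⟨a', b, h1, h2⟩ | ⟨a', b, h1, h2⟩ | ⟨a', b, i, j, h, h1, h2⟩ |
          ⟨a', b, i, h, h1, h2⟩
        all_goals simp only [Sum.inr.injEq, Sum.inl.injEq, reduceCtorEq] at h1 h2
        subst h1 h2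
        congr 2
        funext n
        simp [cpl]
      · rcases h3 with ⟨i, j, h, h1, h2⟩ | ⟨a', h1, h2⟩ | ⟨a', h, h1, h2⟩ | ⟨a', h1, h2⟩ |
          ⟨a', b, h1, h2⟩ | ⟨a', b, h1, h2⟩ | ⟨a', b, h1, h2⟩ | ⟨a', b, i, j, h, h1, h2⟩ |
          ⟨a', b, i, h, h1, h2⟩
        all_goals simp only [Sum.inr.injEq, Sum.inl.injEq, reduceCtorEq] at h1 h2
        subst h1 h2
        rfl
    · exfalso
      cases h with
      | inr h => cases h
  · refine ((hpal.union (Set.toFinite {Sum.inr (Sum.inl (cpl a)), Sum.inr (Sum.inl (cpl b)),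
      Sum.inr (Sum.inl (inf a b))})).union
      (Set.finite_range (fun j : Fin 5 => (Sum.inr (Sum.inr (a, b, j)) : Pt)))).subset ?_
    rintro x ⟨-, h2⟩
    rw [hadj] at h2
    rcases h2.2 with h3 | h3
    · rcases h3 with ⟨i', j, h, h1, h2⟩ | ⟨a', h1, h2⟩ | ⟨a', h, h1, h2⟩ | ⟨a', h1, h2⟩ |
        ⟨a', b', h1, h2⟩ | ⟨a', b', h1, h2⟩ | ⟨a', b', h1, h2⟩ | ⟨a', b', i', j, h, h1, h2⟩ |
        ⟨a', b', i', h, h1, h2⟩
      all_goals simp only [Sum.inr.injEq, Sum.inl.injEq, reduceCtorEq, Prod.mk.injEq] at h2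
      · obtain ⟨rfl, rfl, -⟩ := h2
        exact Or.inl (Or.inr (by simp [h1]))
      · obtain ⟨rfl, rfl, -⟩ := h2
        exact Or.inl (Or.inr (by simp [h1]))
      · obtain ⟨rfl, rfl, -⟩ := h2
        exact Or.inl (Or.inr (by simp [h1]))
      · obtain ⟨rfl, rfl, -⟩ := h2
        exact Or.inr ⟨i', h1.symm⟩
      · exact Or.inl (Or.inl ⟨0, h1.symm⟩)
    · rcases h3 with ⟨i', j, h, h1, h2⟩ | ⟨a', h1, h2⟩ | ⟨a', h, h1, h2⟩ | ⟨a', h1, h2⟩ |
        ⟨a', b', h1, h2⟩ | ⟨a', b', h1, h2⟩ | ⟨a', b', h1, h2⟩ | ⟨a', b', i', j, h, h1, h2⟩ |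
        ⟨a', b', i', h, h1, h2⟩
      all_goals simp only [Sum.inr.injEq, Sum.inl.injEq, reduceCtorEq, Prod.mk.injEq] at h1
      obtain ⟨rfl, rfl, -⟩ := h1
      exact Or.inr ⟨j, h2.symm⟩

theorem polish_pt : PolishSpace Pt := by
  have h1 : SecondCountableTopology Pt := inferInstance
  have h2 : TopologicalSpace.IsCompletelyMetrizableSpace Pt := inferInstance
  infer_instance

/-- **A Borel graph with chromatic number `3` and countable colouring number such that every
transitive (set or class) model of ZF, in particular every transitive model of ZF + DC, that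
contains a `3`-colouring of the graph contains a nonprincipal ultrafilter on `ω`.** -/
theorem result :
    PolishSpace Pt ∧
    ∃ Γ : SimpleGraph Pt,
      @MeasurableSet (Pt × Pt) (borel (Pt × Pt)) {p : Pt × Pt | Γ.Adj p.1 p.2} ∧
      Γ.chromaticNumber = 3 ∧
      (∃ r : Pt → Pt → Prop, IsWellOrder Pt r ∧ ∀ y, {x | r x y ∧ Γ.Adj x y}.Finite) ∧
      ∀ M : Set ZFSet.{u}, TransitiveModel M → (∃ c ∈ M, IsColouringIn M Γ 3 c) →
        ∃ U ∈ M, IsUltrafilterIn M U :=
  ⟨polish_pt, Gr, borel_gr, chromaticNumber_gr, ⟨ord, ord_wo, ord_finite⟩,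
    fun _ hM ⟨_, hc, h⟩ => ultrafilter_of_colouring hM hc h⟩

end Pool.Agent.Results.MP_7d109d_lc.ColouringsGiveUltrafilters
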